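import Pool.Agent.L7h28.PX.Bnd
import Pool.Agent.L7h1.PX.Stm2

/-! Project PX: part BND2. -/

set_option autoImplicit false
set_option linter.all false

namespace Pool.Agent.L7h28.PX

open NumberField TensorProduct Pool.Agent.W289.SL Module Pool.Agent.L7h1.PX Polynomial

/-- the Bezout identity for the cyclotomic polynomial and its cofactor -/
theorem bez (t : ℕ) (ht : 0 < t) : ∃ α β Ψ : ℤ[X], cyclotomic t ℤ * Ψ = X ^ t - 1 ∧
    α * cyclotomic t ℤ + β * Ψ = C (t : ℤ) := by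
  obtain ⟨Ψ, hΨ⟩ := cyclotomic.dvd_X_pow_sub_one t ℤ
  refine ⟨X * derivative Ψ - C (t : ℤ) * Ψ, X * derivative (cyclotomic t ℤ), Ψ, hΨ.symm, ?_⟩
  have h1 : derivative (cyclotomic t ℤ) * Ψ + cyclotomic t ℤ * derivative Ψ = C (t : ℤ) * X ^ (t - 1) := by
    rw [← derivative_mul, ← hΨ]
    simp [derivative_X_pow]
  have h2 : (X : ℤ[X]) * X ^ (t - 1) = X ^ t := by
    rw [← pow_succ']
    congr 1
    omega
  calc (X * derivative Ψ - C (t : ℤ) * Ψ) * cyclotomic t ℤ + X * derivative (cyclotomic t ℤ) * Ψ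
      = X * (derivative (cyclotomic t ℤ) * Ψ + cyclotomic t ℤ * derivative Ψ) -
        C (t : ℤ) * (cyclotomic t ℤ * Ψ) := by ring
    _ = C (t : ℤ) * (X * X ^ (t - 1)) - C (t : ℤ) * (X ^ t - 1) := by rw [h1, ← hΨ]; ring
    _ = C (t : ℤ) := by rw [h2]; ring

section

variable {p : ℕ} [Fact p.Prime] {B : Type} [Field B] [NumberField B]

theorem uE_apply (δ : B →+* B) (m : Additive (𝓞 B)ˣ) : uE δ m = unitHom δ m := rfl

theorem aeval_tmul (δ : B →+* B) (P : ℤ[X]) : ∀ m : Additive (𝓞 B)ˣ,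
    aeval (actLin p δ) P ((1 : ℂ_[p]) ⊗ₜ[ℤ] m : UM p B) = (1 : ℂ_[p]) ⊗ₜ[ℤ] (aeval (uE δ) P m) := by
  induction P using Polynomial.induction_on with
  | C a =>
    intro m
    rw [aeval_C, aeval_C, Algebra.algebraMap_eq_smul_one, Algebra.algebraMap_eq_smul_one,
      LinearMap.smul_apply, LinearMap.smul_apply, Module.End.one_apply, Module.End.one_apply]
    exact (map_zsmul (TensorProduct.mk ℤ ℂ_[p] (Additive (𝓞 B)ˣ) 1) _ _).symm
  | add P Q hP hQ =>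
    intro m
    rw [map_add, map_add, LinearMap.add_apply, LinearMap.add_apply, hP, hQ, TensorProduct.tmul_add]
  | monomial n a h =>
    intro m
    have e : (C a * X ^ (n + 1) : ℤ[X]) = C a * X ^ n * X := by ring
    rw [e, map_mul, map_mul (aeval (uE δ)), aeval_X, aeval_X, Module.End.mul_apply,
      Module.End.mul_apply, act_tmul, h, uE_apply]

theorem uE_pow (δ : B →+* B) (n : ℕ) (m : Additive (𝓞 B)ˣ) :
    ((((((uE δ) ^ n) m).toMul : (𝓞 B)ˣ) : 𝓞 B) : B) = (δ : B → B)^[n] (((m.toMul : (𝓞 B)ˣ) : 𝓞 B) : B) := by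
  induction n with
  | zero => rfl
  | succ n ih =>
    rw [pow_succ', Module.End.mul_apply, uE_apply, coe_unitHom, ih, Function.iterate_succ_apply']

theorem uE_pow_eq (δ : B →+* B) (t : ℕ) (h : ∀ x, (δ : B → B)^[t] x = x) : (uE δ) ^ t = 1 := by
  refine LinearMap.ext fun m => ?_
  have h1 : ((((uE δ) ^ t) m).toMul : (𝓞 B)ˣ) = m.toMul := unit_ext (by rw [uE_pow, h])
  exact h1

/-- a linear map with trivial kernel on the kernel of `T` is bounded below -/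
theorem bounded_below {L : ℂ_[p] → ℂ_[p]} (hL : IsIwasawaLog p L) (S : Set (B →+* ℂ_[p]))
    (T : UM p B →ₗ[ℂ_[p]] UM p B)
    (hinj : ∀ x, T x = 0 → (∀ τ ∈ S, logLin hL τ x = 0) → x = 0) :
    ∃ D : ℝ, 0 ≤ D ∧ ∀ (y : UM p B) (M : ℝ), T y = 0 → 0 ≤ M →
      (∀ τ ∈ S, ‖logLin hL τ y‖ ≤ M) → ∀ i, ‖cf i y‖ ≤ D * M := by
  classical
  let E : Submodule ℂ_[p] (UM p B) := LinearMap.ker T
  have hE : ∀ y, y ∈ E ↔ T y = 0 := fun y => LinearMap.mem_ker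
  let Φ : E →ₗ[ℂ_[p]] (S → ℂ_[p]) :=
    LinearMap.pi (fun τ : S => (logLin hL (τ : B →+* ℂ_[p])).comp E.subtype)
  have hΦ : LinearMap.ker Φ = ⊥ := by
    rw [LinearMap.ker_eq_bot']
    intro y hy
    apply Subtype.ext
    apply hinj y ((hE _).1 y.2)
    intro τ hτ
    exact congrFun hy ⟨τ, hτ⟩
  obtain ⟨g, hg⟩ := Φ.exists_leftInverse_of_injective hΦ
  haveI : Finite S := inferInstance
  haveI : Fintype S := Fintype.ofFinite S
  let G : Fin (Units.rank B) → ((S → ℂ_[p]) →ₗ[ℂ_[p]] ℂ_[p]) := fun i =>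
    (cf i).comp (E.subtype.comp g)
  have hG : ∀ i (y : E), G i (Φ y) = cf i (y : UM p B) := by
    intro i y
    have h1 : g (Φ y) = y := by
      have := congrArg (fun f : E →ₗ[ℂ_[p]] E => f y) hg
      exact this
    simp only [G, LinearMap.comp_apply, h1]
    rfl
  obtain ⟨D, hD⟩ : ∃ D : ℝ, D = ∑ i, ∑ τ : S, ‖G i (fun j => if τ = j then 1 else 0)‖ := ⟨_, rfl⟩
  have hD0 : 0 ≤ D := by rw [hD]; positivity
  refine ⟨D, hD0, ?_⟩
  intro y M hy hM hτ i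
  have h1 := hG i ⟨y, (hE y).2 hy⟩
  rw [LinearMap.pi_apply_eq_sum_univ] at h1
  simp only at h1
  rw [← h1]
  refine (norm_sum_le _ _).trans ?_
  have h2 : ∑ τ : S, ‖G i (fun j => if τ = j then 1 else 0)‖ ≤ D := by
    rw [hD]
    exact Finset.single_le_sum (f := fun i => ∑ τ : S, ‖G i (fun j => if τ = j then 1 else 0)‖)
      (fun i _ => by positivity) (Finset.mem_univ i)
  calc _ ≤ ∑ τ : S, ‖G i (fun j => if τ = j then 1 else 0)‖ * M := by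
        refine Finset.sum_le_sum fun τ _ => ?_
        rw [norm_smul, mul_comm]
        exact mul_le_mul_of_nonneg_left (hτ τ τ.2) (norm_nonneg _)
    _ = (∑ τ : S, ‖G i (fun j => if τ = j then 1 else 0)‖) * M := by rw [Finset.sum_mul]
    _ ≤ D * M := mul_le_mul_of_nonneg_right h2 hM

/-- the logarithms on the lattice are bounded -/
theorem log_const {L : ℂ_[p] → ℂ_[p]} (hL : IsIwasawaLog p L) (S : Set (B →+* ℂ_[p])) :
    ∃ C1 : ℝ, 0 ≤ C1 ∧ ∀ τ ∈ S, ∀ v : UM p B, Lat v → ‖logLin hL τ v‖ ≤ C1 := by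
  haveI : Finite S := inferInstance
  haveI : Fintype S := Fintype.ofFinite S
  obtain ⟨F, hF⟩ : ∃ F : (B →+* ℂ_[p]) → ℝ, ∀ τ, F τ = ∑ i, ‖logLin hL (τ : B →+* ℂ_[p])
    ((1 : ℂ_[p]) ⊗ₜ[ℤ] Additive.ofMul (Units.fundSystem B i) : UM p B)‖ := ⟨_, fun _ => rfl⟩
  have hF0 : ∀ τ, 0 ≤ F τ := fun τ => by
    rw [hF]
    exact Finset.sum_nonneg fun i _ => norm_nonneg _
  refine ⟨∑ τ : S, F τ, Finset.sum_nonneg fun τ _ => hF0 τ, fun τ hτ v hv => ?_⟩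
  refine (hv.log hL τ).trans ?_
  rw [← hF]
  exact Finset.single_le_sum (f := fun τ : S => F τ) (fun τ _ => hF0 τ)
    (Finset.mem_univ (⟨τ, hτ⟩ : S))

theorem power_of_dvd (hroot : ∀ ζ : B, ζ ^ p = 1 → ζ = 1) (u : (𝓞 B)ˣ) (k : ℕ)
    (hdvd : ∀ i, ((p : ℤ) ^ k) ∣ cz B i (Additive.ofMul u)) : ∃ w : (𝓞 B)ˣ, u = w ^ p ^ k := by
  choose m hm using hdvd
  obtain ⟨ζ, hζ, hdec⟩ := cz_spec B u
  obtain ⟨ξ, hξ⟩ := root_pow (p := p) hroot hζ k
  refine ⟨ξ * ∏ i, Units.fundSystem B i ^ m i, ?_⟩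
  rw [mul_pow, hξ, ← Finset.prod_pow]
  conv_lhs => rw [hdec]
  congr 1
  refine Finset.prod_congr rfl fun i _ => ?_
  rw [hm i, mul_comm, zpow_mul, ← zpow_natCast]
  push_cast
  rfl

end

theorem s_BND2 : S_BND2 := by
  intro p _ B _ _ hroot L hL S δ t ht hδ hinj C
  have hp : p.Prime := Fact.out
  have hp1 : (1 : ℝ) < p := by exact_mod_cast hp.one_lt
  have hp0 : (0 : ℝ) < p := by linarith
  obtain ⟨α, β, Ψ, hΨ, hbez⟩ := bez t ht
  obtain ⟨D, hD0, hD⟩ := bounded_below hL S (aeval (actLin p (δ : B →+* B)) (cyclotomic t ℤ)) hinj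
  obtain ⟨C1, hC10, hC1⟩ := log_const (B := B) hL S
  have ht0 : (0 : ℝ) < ‖(t : ℚ_[p])‖ := by
    rw [norm_pos_iff]
    exact_mod_cast ht.ne'
  obtain ⟨c, hc⟩ := pow_unbounded_of_one_lt ((D * (|C| + C1) + 1) / ‖(t : ℚ_[p])‖) hp1
  rw [div_lt_iff₀ ht0] at hc
  refine ⟨c, fun k u w hu hw => power_of_dvd hroot u (k - c) ?_⟩
  obtain ⟨y, hy⟩ : ∃ y : Additive (𝓞 B)ˣ, y = aeval (uE (δ : B →+* B)) (β * Ψ) (Additive.ofMul u) := ⟨_, rfl⟩
  obtain ⟨v, hv⟩ : ∃ v : Additive (𝓞 B)ˣ, v = aeval (uE (δ : B →+* B)) α (Additive.ofMul w) := ⟨_, rfl⟩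
  have hΦy : aeval (uE (δ : B →+* B)) (cyclotomic t ℤ) y = 0 := by
    rw [hy, ← Module.End.mul_apply, ← map_mul]
    have e : cyclotomic t ℤ * (β * Ψ) = β * (X ^ t - 1) := by rw [← hΨ]; ring
    rw [e, map_mul, map_sub, map_pow, aeval_X, map_one, uE_pow_eq _ t hδ, sub_self, mul_zero,
      LinearMap.zero_apply]
  have htu : (t : ℤ) • Additive.ofMul u = ((p : ℤ) ^ k) • v + y := by
    have h1 : aeval (uE (δ : B →+* B)) (α * cyclotomic t ℤ + β * Ψ) (Additive.ofMul u) =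
        (t : ℤ) • Additive.ofMul u := by
      rw [hbez, aeval_C, Algebra.algebraMap_eq_smul_one, LinearMap.smul_apply, Module.End.one_apply]
    rw [← h1, map_add, LinearMap.add_apply, ← hy, map_mul, Module.End.mul_apply, hw, map_nsmul, ← hv]
    congr 1
  -- the logarithms
  have hpk : ‖(p : ℂ_[p]) ^ k‖ = ((p : ℝ)⁻¹) ^ k := by rw [norm_pow, norm_p']
  have hpk0 : 0 < ((p : ℝ)⁻¹) ^ k := by positivity
  have htens : (t : ℂ_[p]) • ((1 : ℂ_[p]) ⊗ₜ[ℤ] Additive.ofMul u : UM p B) =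
      (p : ℂ_[p]) ^ k • ((1 : ℂ_[p]) ⊗ₜ[ℤ] v : UM p B) + ((1 : ℂ_[p]) ⊗ₜ[ℤ] y : UM p B) := by
    have h1 := congrArg (TensorProduct.mk ℤ ℂ_[p] (Additive (𝓞 B)ˣ) 1) htu
    rw [map_add, map_zsmul, map_zsmul, ← Int.cast_smul_eq_zsmul ℂ_[p], ← Int.cast_smul_eq_zsmul ℂ_[p]] at h1
    push_cast at h1
    exact h1
  have hlogy : ∀ τ ∈ S, ‖logLin hL τ ((1 : ℂ_[p]) ⊗ₜ[ℤ] y : UM p B)‖ ≤ (|C| + C1) * ((p : ℝ)⁻¹) ^ k := by
    intro τ hτ
    have h1 := congrArg (logLin hL τ) htens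
    rw [map_add, map_smul, map_smul, smul_eq_mul, smul_eq_mul, log_tmul] at h1
    have h2 : logLin hL τ ((1 : ℂ_[p]) ⊗ₜ[ℤ] y : UM p B) = (t : ℂ_[p]) * L (τ ((u : 𝓞 B) : B)) -
        (p : ℂ_[p]) ^ k * logLin hL τ ((1 : ℂ_[p]) ⊗ₜ[ℤ] v : UM p B) := by
      rw [h1]; ring
    rw [h2]
    refine (norm_sub_le _ _).trans ?_
    rw [norm_mul, norm_mul ((p : ℂ_[p]) ^ k) _, hpk, add_mul]
    apply add_le_add
    · calc ‖(t : ℂ_[p])‖ * ‖L (τ ((u : 𝓞 B) : B))‖ ≤ 1 * (C * ((p : ℝ)⁻¹) ^ k) :=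
            mul_le_mul (IsUltrametricDist.norm_natCast_le_one _ _) (hu τ hτ) (norm_nonneg _) zero_le_one
        _ ≤ |C| * ((p : ℝ)⁻¹) ^ k := by
            rw [one_mul]
            exact mul_le_mul_of_nonneg_right (le_abs_self C) hpk0.le
    · rw [mul_comm]
      exact mul_le_mul_of_nonneg_right (hC1 τ hτ _ (Lat.unit _)) hpk0.le
  have hcf := hD ((1 : ℂ_[p]) ⊗ₜ[ℤ] y : UM p B) _ (by rw [aeval_tmul, hΦy, TensorProduct.tmul_zero])
    (by positivity) hlogy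
  intro i
  rcases Nat.lt_or_ge c k with hck | hck
  · have h1 := hcf i
    rw [cf_tmul, one_mul] at h1
    have h2 : ‖(t : ℚ_[p])‖ * ‖((cz B i (Additive.ofMul u) : ℤ) : ℚ_[p])‖ ≤
        (D * (|C| + C1) + 1) * ((p : ℝ)⁻¹) ^ k := by
      have h3 := congrArg (cz B i) htu
      rw [map_add, map_zsmul, map_zsmul, smul_eq_mul, smul_eq_mul] at h3
      have h4 : ‖(((t : ℤ) * cz B i (Additive.ofMul u) : ℤ) : ℂ_[p])‖ =
          ‖(((p : ℤ) ^ k * cz B i v + cz B i y : ℤ) : ℂ_[p])‖ := by rw [h3]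
      rw [← norm_nat', ← norm_int', ← norm_mul]
      push_cast at h4
      rw [h4]
      refine (norm_add_le _ _).trans ?_
      have h5 : ‖(p : ℂ_[p]) ^ k * ((cz B i v : ℤ) : ℂ_[p])‖ ≤ ((p : ℝ)⁻¹) ^ k := by
        rw [norm_mul, hpk]
        exact mul_le_of_le_one_right hpk0.le (IsUltrametricDist.norm_intCast_le_one _ _)
      linarith
    have h5 : ‖((cz B i (Additive.ofMul u) : ℤ) : ℚ_[p])‖ ≤ (p : ℝ) ^ (-((k - c : ℕ) : ℤ)) := by
      have h6 : ‖(t : ℚ_[p])‖ * ‖((cz B i (Additive.ofMul u) : ℤ) : ℚ_[p])‖ ≤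
          ‖(t : ℚ_[p])‖ * (p : ℝ) ^ (-((k - c : ℕ) : ℤ)) := by
        refine h2.trans ?_
        have h7 : (D * (|C| + C1) + 1) * ((p : ℝ)⁻¹) ^ k ≤ ((p : ℝ) ^ c * ‖(t : ℚ_[p])‖) * ((p : ℝ)⁻¹) ^ k :=
          mul_le_mul_of_nonneg_right hc.le hpk0.le
        refine h7.trans (le_of_eq ?_)
        have h8 : k = c + (k - c) := by omega
        rw [zpow_neg, zpow_natCast, mul_comm ((p : ℝ) ^ c), mul_assoc]
        congr 1
        conv_lhs => rw [h8, pow_add, ← mul_assoc, ← mul_pow, mul_inv_cancel₀ hp0.ne', one_pow, one_mul]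
        rw [inv_pow]
      exact le_of_mul_le_mul_left h6 ht0
    have h8 := (Padic.norm_int_le_pow_iff_dvd _ _).1 h5
    exact_mod_cast h8
  · rw [Nat.sub_eq_zero_of_le hck, pow_zero]
    exact one_dvd _

end Pool.Agent.L7h28.PX
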