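import Pool.Agent.L7h1.PX.Stm3

/-! Project PX: part FINQ. -/

set_option autoImplicit false
set_option linter.all false

namespace Pool.Agent.L7h28.PX

open NumberField TensorProduct Pool.Agent.W289.SL Module Pool.Agent.L7h1.PX Polynomial IsDedekindDomain

theorem exists_val {B : Type} [Field B] [NumberField B] (v : HeightOneSpectrum (𝓞 B)) (m : ℤ) :
    ∃ e : B, v.valuation B e = WithZero.exp m := by
  obtain ⟨π, hπ⟩ := v.valuation_exists_uniformizer B
  refine ⟨π ^ (-m), ?_⟩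
  rw [map_zpow₀, hπ, ← WithZero.exp_zsmul]
  congr 1
  simp

theorem s_FINQ (hV : S_VFIN) : S_FINQ := by
  classical
  intro p _ B _ _ hroot L hL S δ t ht hδ hinj Q c₁
  have hp : p.Prime := Fact.out
  obtain ⟨C, hC⟩ := hV p B hroot L hL S δ t ht hδ hinj
  refine ⟨C * (p ^ c₁) ^ Q.card, fun k Y hY hinc => ?_⟩
  have hm : ∀ a ∈ Y, ∀ v : HeightOneSpectrum (𝓞 B), ∃ m : ℤ,
      v.valuation B (a : B) = WithZero.exp (((p ^ (k - c₁) : ℕ) : ℤ) * m) := by
    intro a ha v
    obtain ⟨b, hb⟩ := (hY a ha).2.1 v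
    have hb0 : v.valuation B b ≠ 0 := by
      intro h
      rw [h, zero_pow (by have := hp.pos; positivity)] at hb
      exact a.ne_zero ((Valuation.zero_iff _).1 hb)
    refine ⟨WithZero.log (v.valuation B b), ?_⟩
    rw [hb, ← smul_eq_mul, WithZero.exp_zsmul, WithZero.exp_log hb0, zpow_natCast]
  choose! m hm using hm
  have hpc : p ^ c₁ ≠ 0 := by have := hp.pos; positivity
  haveI : NeZero (p ^ c₁) := ⟨hpc⟩
  let f : Bˣ → (Q → ZMod (p ^ c₁)) := fun a v => ((m a v : ℤ) : ZMod (p ^ c₁))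
  have hfib : ∀ r ∈ Y.image f, (Y.filter (fun a => f a = r)).card ≤ C := by
    intro r hr
    rw [Finset.mem_image] at hr
    obtain ⟨a₀, ha₀, rfl⟩ := hr
    have h1 := hC k ((Y.filter (fun a => f a = f a₀)).image (fun a => a / a₀)) (by
      intro x hx
      rw [Finset.mem_image] at hx
      obtain ⟨a, ha, rfl⟩ := hx
      rw [Finset.mem_filter] at ha
      obtain ⟨ha, haf⟩ := ha
      refine ⟨fun v => ?_, fun τ hτ => ?_, ?_⟩
      · by_cases hv : v ∈ Q
        · have h2 := congrFun haf ⟨v, hv⟩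
          simp only [f] at h2
          rw [ZMod.intCast_eq_intCast_iff_dvd_sub] at h2
          obtain ⟨j, hj⟩ := h2
          obtain ⟨e, he⟩ := exists_val v (((p ^ (c₁ + (k - c₁) - k) : ℕ) : ℤ) * (-j))
          refine ⟨e, ?_⟩
          rw [he, Units.val_div_eq_div_val, map_div₀, hm a ha v, hm a₀ ha₀ v, ← WithZero.exp_sub,
            ← WithZero.exp_nsmul]
          congr 1
          have h3 : p ^ k * p ^ (c₁ + (k - c₁) - k) = p ^ (k - c₁) * p ^ c₁ := by
            rw [← pow_add, ← pow_add]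
            congr 1
            omega
          have h4 : ((p ^ k : ℕ) : ℤ) * ((p ^ (c₁ + (k - c₁) - k) : ℕ) : ℤ) =
              ((p ^ (k - c₁) : ℕ) : ℤ) * ((p ^ c₁ : ℕ) : ℤ) := by exact_mod_cast h3
          rw [nsmul_eq_mul, ← mul_assoc, h4, ← mul_sub]
          have h5 : m a v - m a₀ v = ((p ^ c₁ : ℕ) : ℤ) * (-j) := by
            have : m a v - m a₀ v = -(m a₀ v - m a v) := by ring
            rw [this, hj]
            ring
          rw [h5]
          ring
        · obtain ⟨b, hb⟩ := (hY a ha).1 v hv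
          obtain ⟨b₀, hb₀⟩ := (hY a₀ ha₀).1 v hv
          refine ⟨b / b₀, ?_⟩
          rw [Units.val_div_eq_div_val, map_div₀, hb, hb₀, map_div₀, div_pow]
      · obtain ⟨b, hb, hb2⟩ := (hY a ha).2.2.1 τ hτ
        obtain ⟨b₀, hb₀, hb₀2⟩ := (hY a₀ ha₀).2.2.1 τ hτ
        refine ⟨b / b₀, div_mem hb hb₀, ?_⟩
        rw [Units.val_div_eq_div_val, map_div₀, div_pow, hb2, hb₀2]
      · obtain ⟨c, hc⟩ := (hY a ha).2.2.2
        obtain ⟨c₀, hc₀⟩ := (hY a₀ ha₀).2.2.2
        refine ⟨c / c₀, ?_⟩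
        rw [ofMul_div, map_sub, hc, hc₀, ofMul_div, nsmul_sub]) (by
      intro x hx x' hx' hne
      rw [Finset.mem_image] at hx hx'
      obtain ⟨a, ha, rfl⟩ := hx
      obtain ⟨a', ha', rfl⟩ := hx'
      rw [Finset.mem_filter] at ha ha'
      rintro ⟨c, hc⟩
      refine hinc a ha.1 a' ha'.1 (fun h => hne (by rw [h])) ⟨c, ?_⟩
      rw [div_mul_eq_mul_div, div_left_inj] at hc
      exact hc)
    rwa [Finset.card_image_of_injective _ (div_left_injective (b := a₀))] at h1
  refine (Finset.card_le_mul_card_image Y C hfib).trans ?_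
  apply Nat.mul_le_mul_left
  refine (Finset.card_le_univ _).trans (le_of_eq ?_)
  rw [Fintype.card_fun, ZMod.card, Fintype.card_coe]

end Pool.Agent.L7h28.PX
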