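import Pool.Agent.L7h1.PX.Stm

/-! Project PX: parts CLS and SEL. -/

set_option autoImplicit false
set_option linter.all false

namespace Pool.Agent.L7h28.PX

open NumberField IsDedekindDomain Pool.Agent.L7h1.PX

variable {B : Type} [Field B] [NumberField B]

/-- an integer all of whose valuations are divisible by `m` generates the `m`-th power of an ideal -/
theorem ideal_root (m : ℕ) (hm : 0 < m) (x : 𝓞 B) (hx : x ≠ 0)
    (h : ∀ v : HeightOneSpectrum (𝓞 B), Dvd v m (x : B)) :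
    ∃ J : Ideal (𝓞 B), J ≠ 0 ∧ J ^ m = Ideal.span {x} := by
  classical
  obtain ⟨I, hI⟩ : ∃ I : Ideal (𝓞 B), I = Ideal.span {x} := ⟨_, rfl⟩
  have hI0 : I ≠ 0 := by
    rw [hI, Ne, Ideal.zero_eq_bot, Ideal.span_singleton_eq_bot]
    exact hx
  obtain ⟨n, hn⟩ : ∃ n : HeightOneSpectrum (𝓞 B) → ℕ,
    n = fun v => (Associates.mk v.asIdeal).count (Associates.mk I).factors := ⟨_, rfl⟩
  have hdvd : ∀ v, m ∣ n v := by
    intro v
    obtain ⟨b, hb⟩ := h v
    have e1 : v.valuation B (x : B) = v.intValuation x := v.valuation_of_algebraMap x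
    rw [e1, v.intValuation_if_neg hx, ← hI] at hb
    have hb0 : v.valuation B b ≠ 0 := by
      intro h0
      rw [h0, zero_pow hm.ne'] at hb
      exact WithZero.exp_ne_zero hb
    rw [← WithZero.exp_log hb0, ← WithZero.exp_nsmul, WithZero.exp_inj] at hb
    have h1 : (n v : ℤ) = m * (-(v.valuation B b).log) := by
      rw [hn]
      simp only [nsmul_eq_mul] at hb
      push_cast at hb ⊢
      linarith
    exact Int.natCast_dvd_natCast.1 ⟨_, h1⟩
  have hfin : Function.HasFiniteMulSupport fun v : HeightOneSpectrum (𝓞 B) => v.asIdeal ^ (n v / m) := by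
    refine Set.Finite.subset (Ideal.hasFiniteMulSupport hI0) ?_
    intro v hv hcon
    apply hv
    have h1 : n v = 0 := by
      by_contra h0
      have h2 : v.maxPowDividing I = v.asIdeal ^ n v := by rw [hn]; rfl
      simp only at hcon
      rw [h2] at hcon
      have h3 : IsUnit v.asIdeal := by
        have h4 : IsUnit (v.asIdeal ^ n v) := by rw [hcon]; exact isUnit_one
        exact (isUnit_pow_iff h0).1 h4
      exact v.isPrime.ne_top (Ideal.isUnit_iff.1 h3)
    simp only [h1, Nat.zero_div, pow_zero]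
  have h1 : (∏ᶠ v : HeightOneSpectrum (𝓞 B), v.asIdeal ^ (n v / m)) ^ m = I := by
    rw [finprod_pow hfin m]
    conv_rhs => rw [← Ideal.finprod_heightOneSpectrum_factorization hI0]
    apply finprod_congr
    intro v
    rw [← pow_mul, Nat.div_mul_cancel (hdvd v), hn]
    rfl
  refine ⟨_, ?_, h1.trans hI⟩
  intro h0
  rw [h0, zero_pow hm.ne'] at h1
  exact hI0 h1.symm

/-- the integral form of an element all of whose valuations are divisible by `m` -/
theorem integral_form (m : ℕ) (hm : 0 < m) (a : B) (ha : a ≠ 0)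
    (h : ∀ v : HeightOneSpectrum (𝓞 B), Dvd v m a) :
    ∃ (x y : 𝓞 B) (J : Ideal (𝓞 B)), x ≠ 0 ∧ y ≠ 0 ∧ J ≠ 0 ∧ a * (y : B) ^ m = (x : B) ∧
      J ^ m = Ideal.span {x} := by
  obtain ⟨x, y, hy, hxy⟩ := IsFractionRing.div_surjective (A := 𝓞 B) a
  have hy0 : y ≠ 0 := nonZeroDivisors.ne_zero hy
  have hyB : ((y : 𝓞 B) : B) ≠ 0 := by
    intro h0
    exact hy0 (by exact_mod_cast h0)
  have hxB : ((x : 𝓞 B) : B) = a * (y : B) := by
    have : a = (x : B) / (y : B) := hxy.symm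
    rw [this]
    field_simp
  have hx' : ((x * y ^ (m - 1) : 𝓞 B) : B) = a * (y : B) ^ m := by
    have e : ((x * y ^ (m - 1) : 𝓞 B) : B) = (x : B) * (y : B) ^ (m - 1) := by
      have e1 := map_mul (algebraMap (𝓞 B) B) x (y ^ (m - 1))
      rw [map_pow] at e1
      exact e1
    rw [e, hxB, mul_assoc, ← pow_succ', Nat.sub_add_cancel hm]
  have hx0 : x * y ^ (m - 1) ≠ 0 := by
    intro h0
    rw [h0] at hx'
    have : a * (y : B) ^ m ≠ 0 := mul_ne_zero ha (pow_ne_zero _ hyB)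
    exact this (by rw [← hx']; simp)
  have hd : ∀ v : HeightOneSpectrum (𝓞 B), Dvd v m ((x * y ^ (m - 1) : 𝓞 B) : B) := by
    intro v
    obtain ⟨b, hb⟩ := h v
    refine ⟨b * (y : B), ?_⟩
    rw [hx', map_mul, map_pow, map_mul, mul_pow, hb]
  obtain ⟨J, hJ0, hJ⟩ := ideal_root m hm _ hx0 hd
  exact ⟨_, y, J, hx0, hy0, hJ0, hx'.symm, hJ⟩

/-- two integers with the same ideal differ by a unit -/
theorem unit_of_span {x y : 𝓞 B} (h : Ideal.span {x} = Ideal.span {y}) :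
    ∃ u : (𝓞 B)ˣ, x = (u : 𝓞 B) * y := by
  rw [Ideal.span_singleton_eq_span_singleton] at h
  obtain ⟨u, hu⟩ := h.symm
  exact ⟨u, by rw [← hu, mul_comm]⟩

theorem s_CLS : S_CLS := by
  intro B _ _
  classical
  refine ⟨Fintype.card (ClassGroup (𝓞 B)), Fintype.card_pos, fun a m ha hm hv => ?_⟩
  obtain ⟨h, hh⟩ : ∃ h : ℕ, h = Fintype.card (ClassGroup (𝓞 B)) := ⟨_, rfl⟩
  rw [← hh]
  obtain ⟨x, y, J, hx, hy, hJ0, hxy, hJ⟩ := integral_form m hm a ha hv
  have hyB : ((y : 𝓞 B) : B) ≠ 0 := by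
    intro h0
    exact hy (by exact_mod_cast h0)
  have hJh : (J ^ h).IsPrincipal := by
    have hmem : J ^ h ∈ nonZeroDivisors (Ideal (𝓞 B)) :=
      mem_nonZeroDivisors_of_ne_zero (pow_ne_zero _ hJ0)
    rw [← ClassGroup.mk0_eq_one_iff hmem]
    have e : (⟨J ^ h, hmem⟩ : nonZeroDivisors (Ideal (𝓞 B))) =
        (⟨J, mem_nonZeroDivisors_of_ne_zero hJ0⟩ : nonZeroDivisors (Ideal (𝓞 B))) ^ h := by
      apply Subtype.ext
      simp
    rw [e, map_pow, hh]
    exact pow_card_eq_one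
  obtain ⟨b, hb⟩ := hJh
  rw [Ideal.submodule_span_eq] at hb
  have e1 : Ideal.span {x ^ h} = Ideal.span {b ^ m} := by
    rw [← Ideal.span_singleton_pow, ← Ideal.span_singleton_pow, ← hJ, ← pow_mul, mul_comm, pow_mul]
    congr 1
  obtain ⟨u, hu⟩ := unit_of_span e1
  have hb0 : ((b : 𝓞 B) : B) ≠ 0 := by
    intro h0
    have h1 : b = 0 := by exact_mod_cast h0
    have h2 : x ^ h = 0 := by rw [hu, h1, zero_pow hm.ne', mul_zero]
    exact hx (pow_eq_zero_iff (by rw [hh]; exact Fintype.card_ne_zero) |>.1 h2)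
  refine ⟨u, (b : B) / (y : B) ^ h, div_ne_zero hb0 (pow_ne_zero _ hyB), ?_⟩
  have hu' : ((x : 𝓞 B) : B) ^ h = ((u : 𝓞 B) : B) * (b : B) ^ m := by
    have := congrArg (fun z : 𝓞 B => (z : B)) hu
    push_cast at this
    exact this
  rw [← hxy, mul_pow] at hu'
  rw [div_pow, ← pow_mul]
  have hyp : ((y : 𝓞 B) : B) ^ (h * m) ≠ 0 := pow_ne_zero _ hyB
  rw [mul_div_assoc', eq_div_iff hyp, ← hu', ← pow_mul, mul_comm m h]

theorem s_SEL : S_SEL := by
  intro B _ _ m hm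
  classical
  -- units modulo `m`-th powers
  let R : Subgroup (𝓞 B)ˣ := (powMonoidHom m : (𝓞 B)ˣ →* (𝓞 B)ˣ).range
  have hfin : Finite ((𝓞 B)ˣ ⧸ R) := by
    haveI : Group.FG (𝓞 B)ˣ := Group.fg_iff_monoid_fg.2 inferInstance
    refine CommGroup.finite_of_fg_torsion _ ?_
    intro q
    induction q using QuotientGroup.induction_on with
    | H u =>
      rw [isOfFinOrder_iff_pow_eq_one]
      refine ⟨m, hm, ?_⟩
      rw [← QuotientGroup.mk_pow, QuotientGroup.eq_one_iff]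
      exact ⟨u, rfl⟩
  haveI := Fintype.ofFinite ((𝓞 B)ˣ ⧸ R)
  refine ⟨Fintype.card (ClassGroup (𝓞 B) × ((𝓞 B)ˣ ⧸ R)), fun Y hY hne => ?_⟩
  have hform : ∀ a : Y, ∃ (x y : 𝓞 B) (J : Ideal (𝓞 B)), x ≠ 0 ∧ y ≠ 0 ∧ J ≠ 0 ∧
      (a : B) * (y : B) ^ m = (x : B) ∧ J ^ m = Ideal.span {x} :=
    fun a => integral_form m hm (a : B) (hY a a.2).1 (hY a a.2).2
  choose x y J hx hy hJ0 hxy hJ using hform
  let cl : Y → ClassGroup (𝓞 B) := fun a =>
    ClassGroup.mk0 ⟨J a, mem_nonZeroDivisors_of_ne_zero (hJ0 a)⟩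
  have hB : ∀ {z : 𝓞 B}, z ≠ 0 → ((z : 𝓞 B) : B) ≠ 0 := by
    intro z hz h0
    exact hz (by exact_mod_cast h0)
  -- two elements of the same class
  have key : ∀ a a' : Y, cl a = cl a' → ∃ (u : (𝓞 B)ˣ) (c : B), c ≠ 0 ∧
      (a : B) = ((u : 𝓞 B) : B) * (a' : B) * c ^ m := by
    intro a a' h
    rw [ClassGroup.mk0_eq_mk0_iff] at h
    obtain ⟨α, β, hα, hβ, hI⟩ := h
    simp only at hI
    have e1 : Ideal.span {α ^ m * x a} = Ideal.span {β ^ m * x a'} := by
      rw [← Ideal.span_singleton_mul_span_singleton, ← Ideal.span_singleton_mul_span_singleton,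
        ← Ideal.span_singleton_pow, ← Ideal.span_singleton_pow, ← hJ, ← hJ, ← mul_pow, ← mul_pow, hI]
    obtain ⟨u, hu⟩ := unit_of_span e1
    have hu' : ((α : 𝓞 B) : B) ^ m * (x a : B) = ((u : 𝓞 B) : B) * ((β : B) ^ m * (x a' : B)) := by
      have := congrArg (fun z : 𝓞 B => (z : B)) hu
      push_cast at this
      exact this
    rw [← hxy, ← hxy] at hu'
    refine ⟨u, (β : B) * (y a' : B) / ((α : B) * (y a : B)),
      div_ne_zero (mul_ne_zero (hB hβ) (hB (hy a'))) (mul_ne_zero (hB hα) (hB (hy a))), ?_⟩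
    have h1 : (((α : 𝓞 B) : B) * (y a : B)) ^ m ≠ 0 := pow_ne_zero _ (mul_ne_zero (hB hα) (hB (hy a)))
    rw [div_pow, mul_div_assoc', eq_div_iff h1, mul_pow, mul_pow]
    linear_combination hu'
  -- base points
  let base : Y → Y := fun a => Classical.choose (⟨a, rfl⟩ : ∃ a' : Y, cl a' = cl a)
  have hbase : ∀ a, cl (base a) = cl a := fun a =>
    Classical.choose_spec (⟨a, rfl⟩ : ∃ a' : Y, cl a' = cl a)
  have hbase2 : ∀ a a', cl a = cl a' → base a = base a' := by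
    intro a a' h
    simp only [base]
    congr 1
    rw [h]
  choose u c hc hu using fun a => key a (base a) (hbase a).symm
  let f : Y → ClassGroup (𝓞 B) × ((𝓞 B)ˣ ⧸ R) := fun a => (cl a, (u a : (𝓞 B)ˣ ⧸ R))
  have hinj : Function.Injective f := by
    intro a a' h
    simp only [f, Prod.mk.injEq] at h
    obtain ⟨h1, h2⟩ := h
    rw [QuotientGroup.eq] at h2
    obtain ⟨w, hw⟩ := h2
    have hw' : w ^ m = (u a)⁻¹ * u a' := hw
    have hw2 : u a' = u a * w ^ m := by rw [hw']; group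
    by_contra hcon
    apply hne a' a'.2 a a.2 (fun h => hcon (Subtype.ext h.symm))
    refine ⟨((w : 𝓞 B) : B) * c a' / c a, ?_⟩
    have e1 := hu a
    have e2 := hu a'
    rw [← hbase2 a a' h1, hw2] at e2
    have h3 : c a ^ m ≠ 0 := pow_ne_zero _ (hc a)
    rw [div_pow, mul_div_assoc', eq_div_iff h3, e2]
    conv_rhs => rw [e1]
    push_cast
    ring
  have := Fintype.card_le_of_injective f hinj
  simpa using this

end Pool.Agent.L7h28.PX
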