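import Pool.Agent.L7h28.PX.Bnd2
import Pool.Agent.L7h28.PX.Cls

/-! Project PX: part VFIN. -/

set_option autoImplicit false
set_option linter.all false

namespace Pool.Agent.L7h28.PX

open NumberField TensorProduct Pool.Agent.W289.SL Module Pool.Agent.L7h1.PX Polynomial IsDedekindDomain

section

variable {B : Type} [Field B] [NumberField B]

/-- the inclusion of the units of the ring of integers -/
noncomputable def jU : Additive (𝓞 B)ˣ →+ Additive Bˣ :=
  MonoidHom.toAdditive (Units.map ((algebraMap (𝓞 B) B : 𝓞 B →+* B) : 𝓞 B →* B))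

theorem coe_jU (u : Additive (𝓞 B)ˣ) :
    ((((jU u).toMul : Bˣ)) : B) = (((u.toMul : (𝓞 B)ˣ) : 𝓞 B) : B) := rfl

theorem bE_jU (δ : B →+* B) (m : Additive (𝓞 B)ˣ) : bE δ (jU m) = jU (uE δ m) := by
  have h : (bE δ (jU m)).toMul = (jU (uE δ m)).toMul := Units.ext rfl
  exact h

theorem aeval_jU (δ : B →+* B) (P : ℤ[X]) : ∀ m : Additive (𝓞 B)ˣ,
    aeval (bE δ) P (jU m) = jU (aeval (uE δ) P m) := by
  induction P using Polynomial.induction_on with
  | C a =>
    intro m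
    rw [aeval_C, aeval_C, Algebra.algebraMap_eq_smul_one, Algebra.algebraMap_eq_smul_one,
      LinearMap.smul_apply, LinearMap.smul_apply, Module.End.one_apply, Module.End.one_apply, map_zsmul]
  | add P Q hP hQ =>
    intro m
    rw [map_add, map_add, LinearMap.add_apply, LinearMap.add_apply, hP, hQ, map_add]
  | monomial n a h =>
    intro m
    have e : (C a * X ^ (n + 1) : ℤ[X]) = C a * X ^ n * X := by ring
    rw [e, map_mul, map_mul (aeval (uE δ)), aeval_X, aeval_X, Module.End.mul_apply,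
      Module.End.mul_apply, bE_jU, h]

/-- roots of units are units -/
theorem unit_of_pow (d : Bˣ) (N : ℕ) (hN : 0 < N) (u : (𝓞 B)ˣ) (h : (d : B) ^ N = ((u : 𝓞 B) : B)) :
    ∃ w : (𝓞 B)ˣ, ((w : 𝓞 B) : B) = d := by
  have h1 : IsIntegral ℤ (d : B) := by
    apply IsIntegral.of_pow hN
    rw [h]
    exact RingOfIntegers.isIntegral_coe _
  have h2 : IsIntegral ℤ ((d⁻¹ : Bˣ) : B) := by
    apply IsIntegral.of_pow hN
    have h3 : ((d⁻¹ : Bˣ) : B) ^ N = (((u⁻¹ : (𝓞 B)ˣ) : 𝓞 B) : B) := by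
      have h4 : (((u⁻¹ : (𝓞 B)ˣ) : 𝓞 B) : B) * ((u : 𝓞 B) : B) = 1 := by
        rw [← map_mul, Units.inv_mul, map_one]
      have h5 : ((d⁻¹ : Bˣ) : B) ^ N * (d : B) ^ N = 1 := by
        rw [← mul_pow, Units.inv_mul, one_pow]
      have h6 : (d : B) ^ N ≠ 0 := pow_ne_zero _ d.ne_zero
      rw [h] at h5 h6
      exact mul_right_cancel₀ h6 (h5.trans h4.symm)
    rw [h3]
    exact RingOfIntegers.isIntegral_coe _
  refine ⟨⟨⟨(d : B), h1⟩, ⟨((d⁻¹ : Bˣ) : B), h2⟩, ?_, ?_⟩, rfl⟩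
  · apply RingOfIntegers.ext
    show (d : B) * ((d⁻¹ : Bˣ) : B) = 1
    exact Units.mul_inv d
  · apply RingOfIntegers.ext
    show ((d⁻¹ : Bˣ) : B) * (d : B) = 1
    exact Units.inv_mul d

/-- no `p`-torsion -/
theorem pow_inj' {p : ℕ} (hroot : ∀ ζ : B, ζ ^ p = 1 → ζ = 1) (n : ℕ) {x y : Bˣ}
    (h : x ^ p ^ n = y ^ p ^ n) : x = y := by
  induction n generalizing x y with
  | zero => simpa using h
  | succ n ih =>
    rw [pow_succ, pow_mul, pow_mul] at h
    have h1 : (((x ^ p ^ n / y ^ p ^ n : Bˣ)) : B) ^ p = 1 := by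
      rw [← Units.val_pow_eq_pow_val, div_pow, h, div_self', Units.val_one]
    have h2 := hroot _ h1
    have h3 : x ^ p ^ n / y ^ p ^ n = 1 := Units.ext h2
    exact ih (div_eq_one.1 h3)

/-- the Selmer bound for units of `B` -/
theorem sel_units (hSEL : S_SEL) (m : ℕ) (hm : 0 < m) : ∃ C : ℕ, ∀ Y : Finset Bˣ,
    (∀ a ∈ Y, ∀ v : HeightOneSpectrum (𝓞 B), Dvd v m (a : B)) →
    (∀ a ∈ Y, ∀ a' ∈ Y, a ≠ a' → ¬ ∃ c : Bˣ, a = a' * c ^ m) → Y.card ≤ C := by
  classical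
  obtain ⟨C, hC⟩ := hSEL B m hm
  refine ⟨C, fun Y h1 h2 => ?_⟩
  have h3 := hC (Y.image (fun a : Bˣ => (a : B))) (by
    intro a ha
    rw [Finset.mem_image] at ha
    obtain ⟨a', ha', rfl⟩ := ha
    exact ⟨a'.ne_zero, h1 a' ha'⟩) (by
    intro a ha b hb hab
    rw [Finset.mem_image] at ha hb
    obtain ⟨a', ha', rfl⟩ := ha
    obtain ⟨b', hb', rfl⟩ := hb
    rintro ⟨c, hc⟩
    have hc0 : c ≠ 0 := by
      rintro rfl
      rw [zero_pow hm.ne', mul_zero] at hc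
      exact a'.ne_zero hc
    refine h2 a' ha' b' hb' (fun h => hab (by rw [h])) ⟨Units.mk0 c hc0, ?_⟩
    apply Units.ext
    rw [Units.val_mul, Units.val_pow_eq_pow_val, Units.val_mk0]
    exact hc)
  rwa [Finset.card_image_of_injective _ Units.val_injective] at h3

end

theorem s_VFIN (hLOGB : S_LOGB) : S_VFIN := by
  classical
  intro p _ B _ _ hroot L hL S δ t ht hδ hinj
  have hp : p.Prime := Fact.out
  obtain ⟨h, hh, hcls⟩ := s_CLS B
  choose Cτ hCτ using fun τ : B →+* ℂ_[p] => hLOGB p B L hL τ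
  haveI : Finite (B →+* ℂ_[p]) := inferInstance
  haveI : Fintype (B →+* ℂ_[p]) := Fintype.ofFinite _
  obtain ⟨C, hC⟩ : ∃ C : ℝ, C = ∑ τ : B →+* ℂ_[p], |Cτ τ| := ⟨_, rfl⟩
  have hCge : ∀ τ, Cτ τ ≤ C := by
    intro τ
    rw [hC]
    exact (le_abs_self _).trans (Finset.single_le_sum (f := fun τ => |Cτ τ|)
      (fun _ _ => abs_nonneg _) (Finset.mem_univ τ))
  obtain ⟨c, hc⟩ := s_BND2 p B hroot L hL S δ t ht hδ hinj C
  obtain ⟨f, h', hh', hhf⟩ := Nat.exists_eq_pow_mul_and_not_dvd hh.ne' p hp.ne_one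
  choose CS hCS using fun k : ℕ => sel_units (B := B) s_SEL (p ^ k) (by have := hp.pos; positivity)
  refine ⟨CS (c + f) + ∑ k ∈ Finset.range (c + f), CS k, fun k Y hY hinc => ?_⟩
  rcases Nat.lt_or_ge k (c + f) with hk | hk
  · have h1 := hCS k Y (fun a ha => (hY a ha).1) hinc
    have h2 := Finset.single_le_sum (f := CS) (fun _ _ => Nat.zero_le _) (Finset.mem_range.2 hk)
    omega
  -- the main case
  have key : ∀ a ∈ Y, ∃ x : Bˣ, a = x ^ p ^ (k - (c + f)) := by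
    intro a ha
    obtain ⟨ha1, ha2, d, hd⟩ := hY a ha
    obtain ⟨u, b, hb, hab⟩ := hcls (a : B) (p ^ k) a.ne_zero (by have := hp.pos; positivity) ha1
    obtain ⟨b', hb'⟩ : ∃ b' : Bˣ, (b' : B) = b := ⟨Units.mk0 b hb, rfl⟩
    rw [← hb'] at hab
    have hab' : h • Additive.ofMul a = jU (Additive.ofMul u) + p ^ k • Additive.ofMul b' := by
      have h1 : a ^ h = (jU (Additive.ofMul u)).toMul * b' ^ p ^ k := by
        apply Units.ext
        rw [Units.val_pow_eq_pow_val, Units.val_mul, Units.val_pow_eq_pow_val, coe_jU]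
        exact hab
      rw [← ofMul_pow, h1, ofMul_mul, ofMul_pow]
      rfl
    -- the logarithms
    have hlog : ∀ τ ∈ S, ‖L (τ ((u : 𝓞 B) : B))‖ ≤ C * ((p : ℝ)⁻¹) ^ k := by
      intro τ hτ
      obtain ⟨e, he, he2⟩ := ha2 τ hτ
      refine (hCτ τ k u ⟨e ^ h / τ (b' : B), ?_, ?_⟩).trans
        (mul_le_mul_of_nonneg_right (hCge τ) (by positivity))
      · apply div_mem (pow_mem he _)
        exact Subfield.le_topologicalClosure _ ⟨(b' : B), rfl⟩
      · have hτb : τ (b' : B) ≠ 0 := by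
          rw [Ne, map_eq_zero]
          exact b'.ne_zero
        rw [div_pow, div_eq_iff (pow_ne_zero _ hτb), ← pow_mul, mul_comm h, pow_mul, he2,
          ← map_pow, ← map_pow, ← map_mul, hab]
    -- the relation
    have hrel : aeval (bE (δ : B →+* B)) (cyclotomic t ℤ) (jU (Additive.ofMul u)) =
        p ^ k • (h • Additive.ofMul d - aeval (bE (δ : B →+* B)) (cyclotomic t ℤ) (Additive.ofMul b')) := by
      have h1 := congrArg (aeval (bE (δ : B →+* B)) (cyclotomic t ℤ)) hab'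
      rw [map_nsmul, map_add, map_nsmul, hd] at h1
      rw [nsmul_sub, nsmul_left_comm, h1, add_sub_cancel_right]
    rw [aeval_jU] at hrel
    obtain ⟨d', hd'⟩ : ∃ d' : Bˣ, Additive.ofMul d' = h • Additive.ofMul d -
      aeval (bE (δ : B →+* B)) (cyclotomic t ℤ) (Additive.ofMul b') := ⟨_, rfl⟩
    rw [← hd'] at hrel
    obtain ⟨w, hw⟩ := unit_of_pow d' (p ^ k) (by have := hp.pos; positivity)
      (aeval (uE (δ : B →+* B)) (cyclotomic t ℤ) (Additive.ofMul u)).toMul (by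
        have h1 := congrArg (fun z : Additive Bˣ => ((z.toMul : Bˣ) : B)) hrel
        rw [coe_jU] at h1
        rw [h1, ← ofMul_pow]
        rfl)
    have hrel2 : aeval (uE (δ : B →+* B)) (cyclotomic t ℤ) (Additive.ofMul u) = p ^ k • Additive.ofMul w := by
      have h1 : (aeval (uE (δ : B →+* B)) (cyclotomic t ℤ) (Additive.ofMul u)).toMul = w ^ p ^ k := by
        apply unit_ext
        have h2 := congrArg (fun z : Additive Bˣ => ((z.toMul : Bˣ) : B)) hrel
        rw [coe_jU, ← ofMul_pow] at h2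
        refine h2.trans ?_
        have h3 : (((w ^ p ^ k : (𝓞 B)ˣ) : 𝓞 B) : B) = ((w : 𝓞 B) : B) ^ p ^ k :=
          NumberField.Units.coe_pow _ _
        rw [h3, hw]
        rfl
      exact h1
    obtain ⟨w', hw'⟩ := hc k u w hlog hrel2
    -- the roots
    obtain ⟨ι, hι⟩ : ∃ y : Bˣ, (y : B) = ((w' : 𝓞 B) : B) := ⟨(jU (Additive.ofMul w')).toMul, rfl⟩
    have h2 : a ^ h = (ι * b' ^ p ^ c) ^ p ^ (k - c) := by
      apply Units.ext
      rw [Units.val_pow_eq_pow_val, hab, mul_pow, ← pow_mul, ← pow_add, Nat.add_sub_cancel' (by omega),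
        Units.val_mul, Units.val_pow_eq_pow_val, Units.val_pow_eq_pow_val, hι]
      congr 1
      have h3 : ((((w' ^ p ^ (k - c) : (𝓞 B)ˣ)) : 𝓞 B) : B) = ((w' : 𝓞 B) : B) ^ p ^ (k - c) :=
        NumberField.Units.coe_pow _ _
      rw [hw', h3]
    have h3 : (a ^ h') ^ p ^ f = ((ι * b' ^ p ^ c) ^ p ^ (k - (c + f))) ^ p ^ f := by
      rw [← pow_mul, ← pow_mul, mul_comm h', ← hhf, h2, ← pow_add]
      congr 2
      omega
    have h4 := pow_inj' hroot f h3
    have hcop : IsCoprime (h' : ℤ) ((p ^ (k - (c + f)) : ℕ) : ℤ) := by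
      rw [Nat.isCoprime_iff_coprime]
      apply Nat.Coprime.pow_right
      exact ((Nat.Prime.coprime_iff_not_dvd hp).2 hh').symm
    obtain ⟨r, s, hrs⟩ := hcop
    obtain ⟨y, hy⟩ : ∃ y : Bˣ, y = ι * b' ^ p ^ c := ⟨_, rfl⟩
    obtain ⟨N, hN⟩ : ∃ N : ℕ, N = p ^ (k - (c + f)) := ⟨_, rfl⟩
    rw [← hy, ← hN] at h4
    rw [← hN] at hrs ⊢
    refine ⟨y ^ r * a ^ s, ?_⟩
    calc a = a ^ (r * (h' : ℤ) + s * (N : ℤ)) := by rw [hrs, zpow_one]
      _ = (a ^ h') ^ r * (a ^ s) ^ N := by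
          rw [zpow_add, mul_comm r, zpow_mul, zpow_natCast, zpow_mul a s, zpow_natCast (a ^ s)]
      _ = (y ^ r) ^ N * (a ^ s) ^ N := by
          rw [h4, ← zpow_natCast y, ← zpow_mul, mul_comm (N : ℤ) r, zpow_mul, zpow_natCast]
      _ = _ := by rw [mul_pow]
  choose! x hx using key
  have hxinj : Set.InjOn x Y := by
    intro a ha a' ha' hxx
    rw [hx a ha, hx a' ha', hxx]
  rw [← Finset.card_image_of_injOn hxinj]
  refine (hCS (c + f) _ ?_ ?_).trans (Nat.le_add_right _ _)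
  · intro y hy v
    rw [Finset.mem_image] at hy
    obtain ⟨a, ha, rfl⟩ := hy
    obtain ⟨e, he⟩ := (hY a ha).1 v
    refine ⟨e, ?_⟩
    have h1 : v.valuation B ((x a : Bˣ) : B) ^ p ^ (k - (c + f)) = (v.valuation B e ^ p ^ (c + f)) ^ p ^ (k - (c + f)) := by
      rw [← pow_mul, ← pow_add, Nat.add_sub_cancel' hk, ← he, ← map_pow, ← Units.val_pow_eq_pow_val, ← hx a ha]
    exact (pow_left_inj₀ zero_le' zero_le' (by have := hp.pos; positivity)).1 h1
  · intro y hy y' hy' hne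
    rw [Finset.mem_image] at hy hy'
    obtain ⟨a, ha, rfl⟩ := hy
    obtain ⟨a', ha', rfl⟩ := hy'
    rintro ⟨e, he⟩
    refine hinc a ha a' ha' (fun h => hne (by rw [h])) ⟨e, ?_⟩
    rw [hx a ha, hx a' ha', he, mul_pow, ← pow_mul, ← pow_add, Nat.add_sub_cancel' hk]

end Pool.Agent.L7h28.PX
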