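import Pool.Agent.L7h1.PX.Stm

/-! Project PX: part BND. -/

set_option autoImplicit false
set_option linter.all false

namespace Pool.Agent.L7h28.PX

open NumberField TensorProduct Pool.Agent.W289.SL Module Pool.Agent.L7h1.PX

section coord

variable (B : Type) [Field B] [NumberField B]

/-- the decomposition of a unit -/
noncomputable def czf (u : (𝓞 B)ˣ) : Units.torsion B × (Fin (Units.rank B) → ℤ) :=
  (Units.exist_unique_eq_mul_prod B u).choose

theorem czf_spec (u : (𝓞 B)ˣ) :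
    u = (czf B u).1 * ∏ i, Units.fundSystem B i ^ ((czf B u).2 i) :=
  (Units.exist_unique_eq_mul_prod B u).choose_spec.1

theorem czf_unique {u : (𝓞 B)ˣ} (e : Units.torsion B × (Fin (Units.rank B) → ℤ))
    (h : u = e.1 * ∏ i, Units.fundSystem B i ^ (e.2 i)) : czf B u = e :=
  ((Units.exist_unique_eq_mul_prod B u).choose_spec.2 e h).symm

/-- the coordinates of a unit with respect to the fundamental units -/
noncomputable def cz (i : Fin (Units.rank B)) : Additive (𝓞 B)ˣ →+ ℤ where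
  toFun u := (czf B u.toMul).2 i
  map_zero' := by
    rw [toMul_zero, czf_unique B (u := 1) (1, 0) (by simp)]
    rfl
  map_add' u v := by
    rw [toMul_add, czf_unique B (u := u.toMul * v.toMul)
      ((czf B u.toMul).1 * (czf B v.toMul).1, (czf B u.toMul).2 + (czf B v.toMul).2) ?_]
    · rfl
    · conv_lhs => rw [czf_spec B u.toMul, czf_spec B v.toMul]
      simp only [Subgroup.coe_mul, Pi.add_apply, zpow_add, Finset.prod_mul_distrib]
      exact mul_mul_mul_comm _ _ _ _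

theorem cz_spec (u : (𝓞 B)ˣ) : ∃ ζ ∈ Units.torsion B,
    u = ζ * ∏ i, Units.fundSystem B i ^ (cz B i (Additive.ofMul u)) :=
  ⟨(czf B u).1, (czf B u).1.2, czf_spec B u⟩

end coord

section lat

variable {p : ℕ} [Fact p.Prime] {B : Type} [Field B] [NumberField B]

/-- the coordinate functionals -/
noncomputable def cf (i : Fin (Units.rank B)) : UM p B →ₗ[ℂ_[p]] ℂ_[p] :=
  ((Int.castAddHom ℂ_[p]).comp (cz B i)).toIntLinearMap.liftBaseChange ℂ_[p]

theorem cf_tmul (i : Fin (Units.rank B)) (a : ℂ_[p]) (u : Additive (𝓞 B)ˣ) :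
    cf i (a ⊗ₜ[ℤ] u : UM p B) = a * ((cz B i u : ℤ) : ℂ_[p]) := by
  unfold cf
  rw [LinearMap.liftBaseChange_tmul]
  rfl

theorem tmul_torsion {ζ : (𝓞 B)ˣ} (hζ : ζ ∈ Units.torsion B) (a : ℂ_[p]) :
    (a ⊗ₜ[ℤ] Additive.ofMul ζ : UM p B) = 0 := by
  rw [Units.torsion, CommGroup.mem_torsion, isOfFinOrder_iff_pow_eq_one] at hζ
  obtain ⟨N, hN, h⟩ := hζ
  have hN0 : (N : ℂ_[p]) ≠ 0 := by exact_mod_cast hN.ne'
  have e1 : a = (N : ℤ) • (a / N) := by
    rw [zsmul_eq_mul]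
    push_cast
    field_simp
  have e2 : (N : ℤ) • Additive.ofMul ζ = 0 := by
    rw [natCast_zsmul, ← ofMul_pow, h, ofMul_one]
  rw [e1, TensorProduct.smul_tmul, e2, TensorProduct.tmul_zero]

theorem decomp (v : UM p B) :
    v = ∑ i, cf i v • ((1 : ℂ_[p]) ⊗ₜ[ℤ] Additive.ofMul (Units.fundSystem B i) : UM p B) := by
  induction v using TensorProduct.induction_on with
  | zero => simp
  | add x y hx hy =>
    conv_lhs => rw [hx, hy]
    simp only [map_add, add_smul, Finset.sum_add_distrib]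
  | tmul a u =>
    obtain ⟨ζ, hζ, h⟩ := cz_spec B u.toMul
    have h1 : u = Additive.ofMul ζ + ∑ i, (cz B i u) • Additive.ofMul (Units.fundSystem B i) := by
      have h2 : u = Additive.ofMul u.toMul := rfl
      conv_lhs => rw [h2, h]
      rw [ofMul_mul, ofMul_prod]
      rfl
    conv_lhs => rw [h1]
    rw [TensorProduct.tmul_add, tmul_torsion hζ, zero_add, TensorProduct.tmul_sum]
    refine Finset.sum_congr rfl fun i _ => ?_
    have e1 : (a ⊗ₜ[ℤ] ((cz B i u) • Additive.ofMul (Units.fundSystem B i)) : UM p B) =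
        (cz B i u) • (a ⊗ₜ[ℤ] Additive.ofMul (Units.fundSystem B i) : UM p B) :=
      map_zsmul (TensorProduct.mk ℤ ℂ_[p] (Additive (𝓞 B)ˣ) a) _ _
    have e2 : (a ⊗ₜ[ℤ] Additive.ofMul (Units.fundSystem B i) : UM p B) =
        a • ((1 : ℂ_[p]) ⊗ₜ[ℤ] Additive.ofMul (Units.fundSystem B i) : UM p B) := by
      rw [TensorProduct.smul_tmul', smul_eq_mul, mul_one]
    rw [e1, e2, cf_tmul, ← Int.cast_smul_eq_zsmul ℂ_[p], smul_smul, mul_comm]

/-- the lattice over the integers of `ℂ_p` -/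
def Lat (v : UM p B) : Prop := ∀ i, ‖cf i v‖ ≤ 1

theorem Lat.add {v w : UM p B} (hv : Lat v) (hw : Lat w) : Lat (v + w) := by
  intro i
  rw [map_add]
  exact (IsUltrametricDist.norm_add_le_max _ _).trans (max_le (hv i) (hw i))

theorem Lat.smul {v : UM p B} (hv : Lat v) {c : ℂ_[p]} (hc : ‖c‖ ≤ 1) : Lat (c • v) := by
  intro i
  rw [map_smul, smul_eq_mul, norm_mul]
  exact mul_le_one₀ hc (norm_nonneg _) (hv i)

theorem Lat.zero : Lat (0 : UM p B) := by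
  intro i
  rw [map_zero, norm_zero]
  exact zero_le_one

theorem Lat.sum {ι : Type} (s : Finset ι) (f : ι → UM p B) (h : ∀ i ∈ s, Lat (f i)) :
    Lat (∑ i ∈ s, f i) := by
  classical
  induction s using Finset.induction_on with
  | empty => rw [Finset.sum_empty]; exact Lat.zero
  | insert a s ha ih =>
    rw [Finset.sum_insert ha]
    exact (h a (Finset.mem_insert_self _ _)).add (ih fun i hi => h i (Finset.mem_insert_of_mem hi))

theorem Lat.unit (u : Additive (𝓞 B)ˣ) : Lat ((1 : ℂ_[p]) ⊗ₜ[ℤ] u : UM p B) := by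
  intro i
  rw [cf_tmul, one_mul]
  exact IsUltrametricDist.norm_intCast_le_one _ _

theorem act_tmul (f : B →+* B) (a : ℂ_[p]) (u : Additive (𝓞 B)ˣ) :
    actLin p f (a ⊗ₜ[ℤ] u : UM p B) = a ⊗ₜ[ℤ] unitHom f u := by
  unfold actLin
  rw [LinearMap.baseChange_tmul]
  rfl

theorem Lat.act {v : UM p B} (hv : Lat v) (f : B →+* B) : Lat (actLin p f v) := by
  rw [decomp v, map_sum]
  refine Lat.sum _ _ fun i _ => ?_
  rw [map_smul, act_tmul]
  exact (Lat.unit _).smul (hv i)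

theorem Lat.log {L : ℂ_[p] → ℂ_[p]} (hL : IsIwasawaLog p L) {v : UM p B} (hv : Lat v)
    (τ : B →+* ℂ_[p]) : ‖logLin hL τ v‖ ≤
      ∑ i, ‖logLin hL τ ((1 : ℂ_[p]) ⊗ₜ[ℤ] Additive.ofMul (Units.fundSystem B i) : UM p B)‖ := by
  conv_lhs => rw [decomp v, map_sum]
  refine (norm_sum_le _ _).trans (Finset.sum_le_sum fun i _ => ?_)
  rw [map_smul, smul_eq_mul, norm_mul]
  exact mul_le_of_le_one_left (norm_nonneg _) (hv i)

theorem log_tmul {L : ℂ_[p] → ℂ_[p]} (hL : IsIwasawaLog p L) (τ : B →+* ℂ_[p]) (u : (𝓞 B)ˣ) :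
    logLin hL τ ((1 : ℂ_[p]) ⊗ₜ[ℤ] Additive.ofMul u : UM p B) = L (τ ((u : 𝓞 B) : B)) := by
  unfold logLin
  rw [LinearMap.liftBaseChange_tmul, one_smul]
  rfl

theorem coe_unitHom (f : B →+* B) (u : Additive (𝓞 B)ˣ) :
    ((((unitHom f u).toMul : (𝓞 B)ˣ) : 𝓞 B) : B) = f (((u.toMul : (𝓞 B)ˣ) : 𝓞 B) : B) := rfl

theorem unit_ext {u v : (𝓞 B)ˣ} (h : ((u : 𝓞 B) : B) = ((v : 𝓞 B) : B)) : u = v := by
  apply Units.ext
  exact RingOfIntegers.ext h

theorem tmul_zpow' (u : (𝓞 B)ˣ) (n : ℤ) :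
    ((1 : ℂ_[p]) ⊗ₜ[ℤ] Additive.ofMul (u ^ n) : UM p B) =
      (n : ℂ_[p]) • ((1 : ℂ_[p]) ⊗ₜ[ℤ] Additive.ofMul u : UM p B) := by
  rw [ofMul_zpow, Int.cast_smul_eq_zsmul ℂ_[p]]
  exact map_zsmul (TensorProduct.mk ℤ ℂ_[p] (Additive (𝓞 B)ˣ) 1) _ _

theorem norm_alg (x : ℚ_[p]) : ‖algebraMap ℚ_[p] ℂ_[p] x‖ = ‖x‖ := norm_algebraMap' _ _

theorem norm_int' (n : ℤ) : ‖(n : ℂ_[p])‖ = ‖(n : ℚ_[p])‖ := by
  rw [← norm_alg (n : ℚ_[p]), map_intCast]

theorem norm_nat' (n : ℕ) : ‖(n : ℂ_[p])‖ = ‖(n : ℚ_[p])‖ := by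
  rw [← norm_alg (n : ℚ_[p]), map_natCast]

theorem norm_p' : ‖(p : ℂ_[p])‖ = (p : ℝ)⁻¹ := by
  rw [norm_nat', Padic.norm_p]

end lat

open NumberField in
/-- roots of unity are `p^k`-th powers -/
theorem root_pow {p : ℕ} [Fact p.Prime] {B : Type} [Field B] [NumberField B]
    (hroot : ∀ ζ : B, ζ ^ p = 1 → ζ = 1) {ζ : (𝓞 B)ˣ} (hζ : ζ ∈ Units.torsion B) (k : ℕ) :
    ∃ ξ : (𝓞 B)ˣ, ξ ^ p ^ k = ζ := by
  have hp : p.Prime := Fact.out
  rw [Units.torsion, CommGroup.mem_torsion] at hζ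
  have hN := hζ.orderOf_pos
  have hcop : (p ^ k).Coprime (orderOf ζ) := by
    apply Nat.Coprime.pow_left
    rw [Nat.Prime.coprime_iff_not_dvd hp]
    rintro ⟨m, hm⟩
    have h1 : ζ ^ m = 1 := by
      have h2 : (((ζ ^ m : (𝓞 B)ˣ) : 𝓞 B) : B) ^ p = 1 := by
        rw [← Units.coe_pow, ← pow_mul, mul_comm m p, ← hm, pow_orderOf_eq_one]
        rfl
      exact unit_ext (hroot _ h2)
    have h3 : orderOf ζ ∣ m := orderOf_dvd_of_pow_eq_one h1
    have hm0 : 0 < m := by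
      rcases Nat.eq_zero_or_pos m with h | h
      · rw [h, mul_zero] at hm; omega
      · exact h
    have h4 := Nat.le_of_dvd hm0 h3
    rw [hm] at h4
    have := hp.two_le
    nlinarith
  obtain ⟨m, hm⟩ := exists_pow_eq_self_of_coprime hcop
  exact ⟨ζ ^ m, by rw [← pow_mul, mul_comm, pow_mul]; exact hm⟩

set_option maxHeartbeats 4000000 in
theorem s_BND : S_BND := by
  intro p _ B _ _ hroot L hL S δ t ω ht hδ hω hinj C
  classical
  have hp : p.Prime := Fact.out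
  have hp1 : (1 : ℝ) < p := by exact_mod_cast hp.one_lt
  have hp0 : (0 : ℝ) < p := by linarith
  have ht0 : 0 < t := Nat.pos_of_dvd_of_pos ht (by have := hp.two_le; omega)
  obtain ⟨W, hW⟩ : ∃ W : ℂ_[p], W = algebraMap ℚ_[p] ℂ_[p] (ω : ℚ_[p]) := ⟨_, rfl⟩
  rw [← hW] at hinj
  have hWt : W ^ t = 1 := by
    rw [hW, ← map_pow, ← PadicInt.coe_pow, hω]
    simp
  have hWn : ‖W‖ = 1 := by
    have h1 : ‖W‖ ^ t = 1 := by rw [← norm_pow, hWt, norm_one]
    exact (pow_eq_one_iff_of_nonneg (norm_nonneg _) ht0.ne').1 h1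
  obtain ⟨A, hA⟩ : ∃ A : UM p B →ₗ[ℂ_[p]] UM p B, A = actLin p (δ : B →+* B) := ⟨_, rfl⟩
  rw [← hA] at hinj
  let E : Submodule ℂ_[p] (UM p B) := LinearMap.ker (A - W • LinearMap.id)
  have hE : ∀ y, y ∈ E ↔ A y = W • y := by
    intro y
    simp only [E, LinearMap.mem_ker, LinearMap.sub_apply, LinearMap.smul_apply, LinearMap.id_apply,
      sub_eq_zero]
  let Φ : E →ₗ[ℂ_[p]] (S → ℂ_[p]) :=
    LinearMap.pi (fun τ : S => (logLin hL (τ : B →+* ℂ_[p])).comp E.subtype)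
  have hΦ : LinearMap.ker Φ = ⊥ := by
    rw [LinearMap.ker_eq_bot']
    intro y hy
    apply Subtype.ext
    apply hinj y ((hE _).1 y.2)
    intro τ hτ
    exact congrFun hy ⟨τ, hτ⟩
  obtain ⟨g, hg⟩ := Φ.exists_leftInverse_of_injective hΦ
  haveI : Finite S := inferInstance
  haveI : Fintype S := Fintype.ofFinite S
  let G : Fin (Units.rank B) → ((S → ℂ_[p]) →ₗ[ℂ_[p]] ℂ_[p]) := fun i =>
    (cf i).comp (E.subtype.comp g)
  have hG : ∀ i (y : E), G i (Φ y) = cf i (y : UM p B) := by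
    intro i y
    have h1 : g (Φ y) = y := by
      have := congrArg (fun f : E →ₗ[ℂ_[p]] E => f y) hg
      exact this
    simp only [G, LinearMap.comp_apply, h1]
    rfl
  obtain ⟨D, hD⟩ : ∃ D : ℝ, D = ∑ i, ∑ τ : S, ‖G i (fun j => if τ = j then 1 else 0)‖ := ⟨_, rfl⟩
  have hD0 : 0 ≤ D := by rw [hD]; positivity
  obtain ⟨C1, hC10, hC1⟩ : ∃ C1 : ℝ, 0 ≤ C1 ∧ ∀ τ ∈ S, ∑ i, ‖logLin hL (τ : B →+* ℂ_[p])
      ((1 : ℂ_[p]) ⊗ₜ[ℤ] Additive.ofMul (Units.fundSystem B i) : UM p B)‖ ≤ C1 := by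
    obtain ⟨F, hF⟩ : ∃ F : (B →+* ℂ_[p]) → ℝ, ∀ τ, F τ = ∑ i, ‖logLin hL (τ : B →+* ℂ_[p])
      ((1 : ℂ_[p]) ⊗ₜ[ℤ] Additive.ofMul (Units.fundSystem B i) : UM p B)‖ := ⟨_, fun _ => rfl⟩
    have hF0 : ∀ τ, 0 ≤ F τ := fun τ => by
      rw [hF]
      exact Finset.sum_nonneg fun i _ => norm_nonneg _
    refine ⟨∑ τ : S, F τ, Finset.sum_nonneg fun τ _ => hF0 τ, fun τ hτ => ?_⟩
    rw [← hF]
    exact Finset.single_le_sum (f := fun τ : S => F τ) (fun τ _ => hF0 τ)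
      (Finset.mem_univ (⟨τ, hτ⟩ : S))
  -- bounded below
  have hbound : ∀ (y : UM p B) (M : ℝ), A y = W • y → 0 ≤ M →
      (∀ τ ∈ S, ‖logLin hL τ y‖ ≤ M) → ∀ i, ‖cf i y‖ ≤ D * M := by
    intro y M hy hM hτ i
    have h1 := hG i ⟨y, (hE y).2 hy⟩
    rw [LinearMap.pi_apply_eq_sum_univ] at h1
    simp only at h1
    rw [← h1]
    refine (norm_sum_le _ _).trans ?_
    have h2 : ∑ τ : S, ‖G i (fun j => if τ = j then 1 else 0)‖ ≤ D := by
      rw [hD]
      exact Finset.single_le_sum (f := fun i => ∑ τ : S, ‖G i (fun j => if τ = j then 1 else 0)‖)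
        (fun i _ => by positivity) (Finset.mem_univ i)
    calc _ ≤ ∑ τ : S, ‖G i (fun j => if τ = j then 1 else 0)‖ * M := by
          refine Finset.sum_le_sum fun τ _ => ?_
          rw [norm_smul, mul_comm]
          exact mul_le_mul_of_nonneg_left (hτ τ τ.2) (norm_nonneg _)
      _ = (∑ τ : S, ‖G i (fun j => if τ = j then 1 else 0)‖) * M := by rw [Finset.sum_mul]
      _ ≤ D * M := mul_le_mul_of_nonneg_right h2 hM
  obtain ⟨c, hc⟩ := pow_unbounded_of_one_lt (D * (|C| + C1) + 1) hp1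
  refine ⟨c, fun k s hs u hu hw => ?_⟩
  obtain ⟨z, hz⟩ := hs
  obtain ⟨w, hw⟩ := hw
  -- the scalar `s`
  obtain ⟨Z, hZ⟩ : ∃ Z : ℂ_[p], Z = algebraMap ℚ_[p] ℂ_[p] (z : ℚ_[p]) := ⟨_, rfl⟩
  have hZ1 : ‖Z‖ ≤ 1 := by rw [hZ, norm_alg]; exact z.2
  have hsW : (s : ℂ_[p]) = W + (p : ℂ_[p]) ^ k * Z := by
    have h1 : ((s : ℤ_[p]) : ℚ_[p]) = (ω : ℚ_[p]) + (p : ℚ_[p]) ^ k * (z : ℚ_[p]) := by
      rw [hz]
      push_cast
      rfl
    have h2 := congrArg (algebraMap ℚ_[p] ℂ_[p]) h1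
    rw [map_add, map_mul, map_pow, map_natCast, ← hW, ← hZ, PadicInt.coe_intCast, map_intCast] at h2
    exact h2
  -- the sequence
  let U : ℕ → Additive (𝓞 B)ˣ := fun n => (unitHom (δ : B →+* B))^[n] (Additive.ofMul u)
  have hU1 : ∀ n, U (n + 1) = unitHom (δ : B →+* B) (U n) := fun n =>
    Function.iterate_succ_apply' _ _ _
  have hUc : ∀ n, ((((U n).toMul : (𝓞 B)ˣ) : 𝓞 B) : B) = (δ : B → B)^[n] ((u : 𝓞 B) : B) := by
    intro n
    induction n with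
    | zero => rfl
    | succ n ih => rw [hU1, coe_unitHom, ih, Function.iterate_succ_apply']; rfl
  have hUt : U t = Additive.ofMul u := by
    have h1 : (U t).toMul = u := unit_ext (by rw [hUc, hδ])
    exact h1
  obtain ⟨X, hX⟩ : ∃ X : ℕ → UM p B, X = fun n => ((1 : ℂ_[p]) ⊗ₜ[ℤ] U n : UM p B) := ⟨_, rfl⟩
  have hAX : ∀ n, A (X n) = X (n + 1) := by
    intro n
    rw [hX, hA]
    simp only
    rw [act_tmul, hU1]
  have hX0 : X 0 = ((1 : ℂ_[p]) ⊗ₜ[ℤ] Additive.ofMul u : UM p B) := by rw [hX]; rfl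
  have hXt : X t = X 0 := by
    rw [hX0, hX]
    simp only
    rw [hUt]
  have hLX : ∀ n, Lat (X n) := by
    intro n
    rw [hX]
    exact Lat.unit _
  have hstep : ∃ y0 : UM p B, Lat y0 ∧ A (X 0) = W • X 0 + (p : ℂ_[p]) ^ k • y0 := by
    refine ⟨Z • X 0 + ((1 : ℂ_[p]) ⊗ₜ[ℤ] Additive.ofMul w : UM p B),
      ((hLX 0).smul hZ1).add (Lat.unit _), ?_⟩
    have h1 : unitHom (δ : B →+* B) (Additive.ofMul u) = Additive.ofMul (u ^ s * w ^ ((p ^ k : ℕ) : ℤ)) := by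
      have h2 : (unitHom (δ : B →+* B) (Additive.ofMul u)).toMul = u ^ s * w ^ ((p ^ k : ℕ) : ℤ) := by
        apply unit_ext
        rw [coe_unitHom]
        have e : (((u ^ s * w ^ ((p ^ k : ℕ) : ℤ) : (𝓞 B)ˣ) : 𝓞 B) : B) =
            ((u : 𝓞 B) : B) ^ s * ((w : 𝓞 B) : B) ^ (p ^ k) := by
          have e1 := NumberField.Units.coe_mul (K := B) (u ^ s) (w ^ ((p ^ k : ℕ) : ℤ))
          have e2 := NumberField.Units.coe_zpow (K := B) u s
          have e3 := NumberField.Units.coe_zpow (K := B) w ((p ^ k : ℕ) : ℤ)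
          refine e1.trans ?_
          rw [e2, e3, zpow_natCast ((w : 𝓞 B) : B)]
        exact hw.trans e.symm
      exact h2
    rw [hX0, hA, act_tmul, h1, ofMul_mul, TensorProduct.tmul_add, tmul_zpow', tmul_zpow', hsW]
    push_cast
    rw [add_smul, mul_smul, smul_add, add_assoc]
  obtain ⟨y0, hy0, hstep⟩ := hstep
  have hseq : ∀ n, ∃ y : UM p B, Lat y ∧ X n = W ^ n • X 0 + (p : ℂ_[p]) ^ k • y := by
    intro n
    induction n with
    | zero => exact ⟨0, Lat.zero, by simp⟩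
    | succ n ih =>
      obtain ⟨y, hy, h⟩ := ih
      refine ⟨W ^ n • y0 + A y, (hy0.smul (by rw [norm_pow, hWn, one_pow])).add
        (by rw [hA]; exact hy.act _), ?_⟩
      rw [← hAX, h, map_add, map_smul, map_smul, hstep, smul_add, smul_smul, ← pow_succ, smul_add,
        smul_comm (W ^ n) ((p : ℂ_[p]) ^ k), add_assoc]
  choose ys hys hseq using hseq
  obtain ⟨Y, hY⟩ : ∃ Y : UM p B, Y = ∑ i ∈ Finset.range t, W ^ (t - 1 - i) • X i := ⟨_, rfl⟩
  obtain ⟨V, hV⟩ : ∃ V : UM p B, V = ∑ i ∈ Finset.range t, W ^ (t - 1 - i) • ys i := ⟨_, rfl⟩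
  have hVL : Lat V := by
    rw [hV]
    exact Lat.sum _ _ fun i _ => (hys i).smul (by rw [norm_pow, hWn, one_pow])
  have hYV : Y = ((t : ℂ_[p]) * W ^ (t - 1)) • X 0 + (p : ℂ_[p]) ^ k • V := by
    rw [hY, hV, Finset.smul_sum]
    have h1 : ((t : ℂ_[p]) * W ^ (t - 1)) • X 0 = ∑ i ∈ Finset.range t, W ^ (t - 1) • X 0 := by
      rw [Finset.sum_const, Finset.card_range, ← Nat.cast_smul_eq_nsmul ℂ_[p], smul_smul]
    rw [h1, ← Finset.sum_add_distrib]
    refine Finset.sum_congr rfl fun i hi => ?_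
    rw [Finset.mem_range] at hi
    rw [hseq i, smul_add, smul_smul, ← pow_add, smul_comm (W ^ (t - 1 - i)) ((p : ℂ_[p]) ^ k)]
    congr 3
    omega
  have hAY : A Y = W • Y := by
    rw [hY, map_sum, Finset.smul_sum]
    have h1 : ∀ i ∈ Finset.range t, A (W ^ (t - 1 - i) • X i) = W ^ (t - (i + 1)) • X (i + 1) := by
      intro i hi
      rw [map_smul, hAX]
      congr 2
      omega
    have h2 : ∀ i ∈ Finset.range t, W • W ^ (t - 1 - i) • X i = W ^ (t - i) • X i := by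
      intro i hi
      rw [Finset.mem_range] at hi
      rw [smul_smul, ← pow_succ']
      congr 2
      omega
    rw [Finset.sum_congr rfl h1, Finset.sum_congr rfl h2]
    have h3 := Finset.sum_range_succ (fun i => W ^ (t - i) • X i) t
    have h4 := Finset.sum_range_succ' (fun i => W ^ (t - i) • X i) t
    rw [h3] at h4
    simp only [Nat.sub_self, pow_zero, one_smul, Nat.sub_zero, hWt, hXt] at h4
    exact (add_right_cancel h4).symm
  -- norms
  have hpk : ‖(p : ℂ_[p]) ^ k‖ = ((p : ℝ)⁻¹) ^ k := by rw [norm_pow, norm_p']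
  have hpk0 : 0 < ((p : ℝ)⁻¹) ^ k := by positivity
  have htn : ‖((t : ℂ_[p]) * W ^ (t - 1))‖ = 1 := by
    rw [norm_mul, norm_pow, hWn, one_pow, mul_one, norm_nat', Padic.norm_natCast_eq_one_iff,
      Nat.Prime.coprime_iff_not_dvd hp]
    intro h
    have h1 := Nat.le_of_dvd (by have := hp.two_le; omega) (h.trans ht)
    have := hp.two_le
    omega
  have hlogY : ∀ τ ∈ S, ‖logLin hL τ Y‖ ≤ (|C| + C1) * ((p : ℝ)⁻¹) ^ k := by
    intro τ hτ
    rw [hYV, map_add, map_smul, map_smul, smul_eq_mul, smul_eq_mul]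
    refine (norm_add_le _ _).trans ?_
    rw [norm_mul ((t : ℂ_[p]) * W ^ (t - 1)) _, norm_mul ((p : ℂ_[p]) ^ k) _, htn, one_mul, hpk,
      add_mul]
    apply add_le_add
    · rw [hX0, log_tmul]
      refine (hu τ hτ).trans ?_
      exact mul_le_mul_of_nonneg_right (le_abs_self C) hpk0.le
    · rw [mul_comm]
      apply mul_le_mul_of_nonneg_right _ hpk0.le
      exact (hVL.log hL τ).trans (hC1 τ hτ)
  have hcf := hbound Y _ hAY (by positivity) hlogY
  -- the coordinates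
  have hdvd : ∀ i, ((p : ℤ) ^ (k - c)) ∣ cz B i (Additive.ofMul u) := by
    intro i
    rcases Nat.lt_or_ge c k with hck | hck
    · have h1 := hcf i
      rw [hYV, map_add, map_smul, map_smul, smul_eq_mul, smul_eq_mul, hX0, cf_tmul, one_mul] at h1
      have h2 : ‖((cz B i (Additive.ofMul u) : ℤ) : ℂ_[p])‖ ≤
          (D * (|C| + C1) + 1) * ((p : ℝ)⁻¹) ^ k := by
        have h3 : ‖((cz B i (Additive.ofMul u) : ℤ) : ℂ_[p])‖ =
            ‖((t : ℂ_[p]) * W ^ (t - 1)) * ((cz B i (Additive.ofMul u) : ℤ) : ℂ_[p])‖ := by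
          rw [norm_mul, htn, one_mul]
        rw [h3]
        have h4 : ‖(p : ℂ_[p]) ^ k * cf i V‖ ≤ ((p : ℝ)⁻¹) ^ k := by
          rw [norm_mul, hpk]
          exact mul_le_of_le_one_right hpk0.le (hVL i)
        calc _ = ‖(((t : ℂ_[p]) * W ^ (t - 1)) * ((cz B i (Additive.ofMul u) : ℤ) : ℂ_[p]) +
              (p : ℂ_[p]) ^ k * cf i V) - (p : ℂ_[p]) ^ k * cf i V‖ := by
                rw [add_sub_cancel_right]
          _ ≤ ‖(((t : ℂ_[p]) * W ^ (t - 1)) * ((cz B i (Additive.ofMul u) : ℤ) : ℂ_[p]) +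
              (p : ℂ_[p]) ^ k * cf i V)‖ + ‖(p : ℂ_[p]) ^ k * cf i V‖ := norm_sub_le _ _
          _ ≤ D * ((|C| + C1) * ((p : ℝ)⁻¹) ^ k) + ((p : ℝ)⁻¹) ^ k := add_le_add h1 h4
          _ = _ := by ring
      have h5 : ‖((cz B i (Additive.ofMul u) : ℤ) : ℚ_[p])‖ ≤ (p : ℝ) ^ (-((k - c : ℕ) : ℤ)) := by
        rw [← norm_int']
        refine h2.trans ?_
        have h6 : (D * (|C| + C1) + 1) * ((p : ℝ)⁻¹) ^ k ≤ (p : ℝ) ^ c * ((p : ℝ)⁻¹) ^ k :=
          mul_le_mul_of_nonneg_right hc.le hpk0.le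
        refine h6.trans (le_of_eq ?_)
        have h7 : k = c + (k - c) := by omega
        rw [zpow_neg, zpow_natCast]
        conv_lhs => rw [h7, pow_add, ← mul_assoc, ← mul_pow, mul_inv_cancel₀ hp0.ne', one_pow, one_mul]
        rw [inv_pow]
      have h8 := (Padic.norm_int_le_pow_iff_dvd _ _).1 h5
      exact_mod_cast h8
    · rw [Nat.sub_eq_zero_of_le hck, pow_zero]
      exact one_dvd _
  choose m hm using hdvd
  obtain ⟨ζ, hζ, hdec⟩ := cz_spec B u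
  obtain ⟨ξ, hξ⟩ := root_pow (p := p) hroot hζ (k - c)
  refine ⟨ξ * ∏ i, Units.fundSystem B i ^ m i, ?_⟩
  rw [mul_pow, hξ, ← Finset.prod_pow]
  conv_lhs => rw [hdec]
  congr 1
  refine Finset.prod_congr rfl fun i _ => ?_
  rw [hm i, mul_comm, zpow_mul, ← zpow_natCast]
  push_cast
  rfl

end Pool.Agent.L7h28.PX
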